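import Pool.Agent.Y45.MON.StmG
import Pool.Agent.TH54.BU.Turn

set_option autoImplicit false

/-!
# MON G7 (job 1644, helper237 for helper45): a line cannot follow both `y` and `g y`
-/

namespace Pool.Agent.Y237.MON

open Pool.Agent.TH54.BU

theorem turn2 : Pool.Agent.Y45.MON.Turn2Stmt := by
  intro G _ H c θ T L r x y hl i w hnot
  by_contra hcon
  push Not at hcon
  obtain ⟨hD1, hD2⟩ := hcon
  set w2 : G := x⁻¹ * w with hw2
  have hD2' : L.D i w 1 (x * y) = L.D i w2 x⁻¹ y := by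
    unfold LS.D
    have e := L.wf_s_mul i x w2 x⁻¹ y
    rw [hw2, mul_inv_cancel_left, mul_inv_cancel] at e
    rw [e]
  rw [hD2'] at hD2
  -- the projections
  have p1 := L.D_proj i w 1 y (by omega)
  have p2 := L.D_proj i w2 x⁻¹ y (by omega)
  have hP2 : L.pr i w2 x⁻¹ = x⁻¹ * L.pr i w 1 := by
    unfold LS.pr
    rw [hw2]
    have e : (x⁻¹ * w)⁻¹ * x⁻¹ = w⁻¹ * 1 := by group
    rw [e, mul_assoc]
  have e1 : H.d x⁻¹ (L.pr i w2 x⁻¹) = H.d 1 (L.pr i w 1) := by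
    rw [hP2]
    have := H.d_mul x⁻¹ 1 (L.pr i w 1)
    rwa [mul_one] at this
  have e2 : H.d 1 x⁻¹ ≤ r := by
    rw [H.d_one, H.len_inv]
    exact hl
  have l1 : L.D i w 1 y = H.d (L.pr i w 1) (L.pr i w y) := (L.d_pr_pr i w 1 y).symm
  have l2 : L.D i w2 x⁻¹ y = H.d (L.pr i w2 x⁻¹) (L.pr i w2 y) := (L.d_pr_pr i w2 x⁻¹ y).symm
  obtain ⟨k1, a1, a2, a3, a4⟩ :=
    L.tn_point i w 1 y (θ + 8 * c + 2 * H.D + 8 * r + 7) (by omega)
  obtain ⟨k2, b1, b2, b3, b4⟩ :=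
    L.tn_point i w2 x⁻¹ y (θ + 8 * c + 2 * H.D + 8 * r + 7) (by omega)
  have hP2' : L.pr i w2 x⁻¹ = w2 * L.x i ^ (L.κ i (w2⁻¹ * x⁻¹)) := rfl
  have hov : L.D i w (L.pr i w2 x⁻¹) (w2 * L.x i ^ k2) ≤ θ := by
    rw [hP2']
    exact L.wf_ov (i := i) (j := i) (u := w) (w := w2)
      (fun _ => hnot) _ _
  set P1 := L.pr i w 1 with hP1
  set Q1 := L.pr i w y with hQ1
  set P2 := L.pr i w2 x⁻¹ with hP2s
  set Q2 := L.pr i w2 y with hQ2
  set R1 := w * L.x i ^ k1 with hR1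
  set R2 := w2 * L.x i ^ k2 with hR2
  rw [H.d_comm y Q1] at p1
  rw [H.d_comm y Q2] at p2
  -- triangle inequalities
  have t1 := H.d_tri 1 x⁻¹ P2
  have t1' := H.d_tri x⁻¹ 1 y
  rw [H.d_comm x⁻¹ 1] at t1'
  have t2 := H.d_tri P1 Q1 y
  have t3 := H.d_tri P2 Q2 y
  have t4 := H.d_tri 1 P1 R1
  have t5 := H.d_tri R1 Q1 y
  have t6 := H.d_tri 1 P2 R2
  have t7 := H.d_tri R2 Q2 y
  have t8 := H.d_tri 1 R1 y
  have t9 := H.d_tri 1 R2 y
  have t10 := H.d_tri 1 P2 y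
  have t11 := H.d_tri x⁻¹ 1 P2
  rw [H.d_comm x⁻¹ 1] at t11
  have n1 := H.nr (a := 1) (b := y) (x := P1) (y := P2) (c := c + 2 * r) (by omega) (by omega)
  have n2 := H.nr (a := 1) (b := y) (x := R1) (y := R2) (c := 2 * c + 2 * r)
    (by omega) (by omega)
  have z1 : H.d P1 P2 ≤ c + 3 * r + H.D := by omega
  have z2 : H.d R1 R2 ≤ 5 * c + H.D + 3 * r := by omega
  have y1 := L.az_lip i w P1 P2
  have y2 := L.az_lip i w R1 R2
  have y3 := L.D_tri i w P1 P2 R1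
  have y4 := L.D_tri i w P2 R2 R1
  rw [L.D_comm i w R2 R1] at y4
  omega

end Pool.Agent.Y237.MON
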